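import Pool.Agent.Work.MP_0d9b2e_lc.Main

/-!
MP_0d9b2e_lc, Q1: if two saturated filters `W`, `W₁` on the same set `K` of uncountable
cardinality `κ = #K` both decide the image of the ordinal `τ`, as `δ` and `δ₁`, then `δ` and
`δ₁` have the same cardinality unless `#τ` lies in one of two kinds of intervals.
-/

open Cardinal Pool.Agent.Work.MP0d9b2e

universe u

theorem Pool.Agent.Results.MP_0d9b2e_lc.OutsideIntervals.result
    {K : Type u} (W W₁ : Filter K) (hW : SatFilter W) (hW₁ : SatFilter W₁)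
    (τ δ δ₁ : Ordinal.{u}) (hd : Decides W τ δ) (hd₁ : Decides W₁ τ δ₁) :
    δ.card = δ₁.card ∨
    (#K ≤ τ.card ∧ τ.card < 2 ^< #K ∧ Order.succ (Order.succ #K) ≤ 2 ^ #K) ∨
    ∃ o : Ordinal.{u}, (ℵ_ o).ord.cof < #K ∧ (∀ ν < ℵ_ o, ν ^ #K < ℵ_ o) ∧
      ℵ_ (o + (#K).ord) ≤ τ.card ∧ τ.card < ℵ_ o ^ #K ∧
      Order.succ (ℵ_ (o + (#K).ord)) < ℵ_ o ^ #K := by
  by_cases h : δ.card = δ₁.card
  · exact Or.inl h
  · exact Or.inr (outside W W₁ hW hW₁ τ δ δ₁ hd hd₁ h)
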